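import Pool.Agent.Y787.FV.Stm2

/-!
# Existence of free Boolean algebras

Adapted from `Pool.Agent.Y765.FV.EX` (free lattices in varieties).
-/

namespace Pool.Agent.Y903.FV

open Pool.Agent.Y787.FV

universe w

/-- Boolean terms. -/
inductive BT (X : Type w) : Type w
  | var (x : X) : BT X
  | sup (s t : BT X) : BT X
  | inf (s t : BT X) : BT X
  | cp (s : BT X) : BT X
  | bot : BT X
  | top : BT X

/-- The value of a term. -/
def ev {X B : Type w} [BooleanAlgebra B] (f : X → B) : BT X → B
  | .var x => f x
  | .sup s t => ev f s ⊔ ev f t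
  | .inf s t => ev f s ⊓ ev f t
  | .cp s => (ev f s)ᶜ
  | .bot => ⊥
  | .top => ⊤

/-- The order of terms in all Boolean algebras. -/
def Le {X : Type w} (s t : BT X) : Prop :=
  ∀ (B : Type w) [BooleanAlgebra B] (f : X → B), ev f s ≤ ev f t

instance btPreorder (X : Type w) : Preorder (BT X) where
  le s t := Le s t
  le_refl _ := fun _ _ _ => le_rfl
  le_trans _ _ _ h1 h2 := fun B _ f => (h1 B f).trans (h2 B f)

/-- The free Boolean algebra on `X`. -/
def FB (X : Type w) : Type w := Antisymmetrization (BT X) (· ≤ ·)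

instance (X : Type w) : PartialOrder (FB X) :=
  inferInstanceAs (PartialOrder (Antisymmetrization (BT X) _))

variable {X : Type w}

/-- The class of a term. -/
def cl (t : BT X) : FB X := toAntisymmetrization (α := BT X) (· ≤ ·) t

theorem cl_le {s t : BT X} : cl s ≤ cl t ↔ Le s t := Iff.rfl

theorem cl_surj (a : FB X) : ∃ t : BT X, cl t = a := by
  induction a using Quotient.inductionOn with
  | h t => exact ⟨t, rfl⟩

/-- A chosen term representing an element. -/
noncomputable def rep (a : FB X) : BT X := (cl_surj a).choose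

theorem cl_rep (a : FB X) : cl (rep a) = a := (cl_surj a).choose_spec

theorem rep_le {a b : FB X} : Le (rep a) (rep b) ↔ a ≤ b := by
  rw [← cl_le, cl_rep, cl_rep]

theorem rep_cl_le (t : BT X) : Le (rep (cl t)) t := by
  rw [← cl_le, cl_rep]

theorem le_rep_cl (t : BT X) : Le t (rep (cl t)) := by
  rw [← cl_le, cl_rep]

theorem ev_rep {B : Type w} [BooleanAlgebra B] (f : X → B) (t : BT X) :
    ev f (rep (cl t)) = ev f t :=
  le_antisymm (rep_cl_le t B f) (le_rep_cl t B f)

/-- Two elements are comparable when the values of their representatives are. -/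
theorem le_of {a b : FB X}
    (h : ∀ (B : Type w) [BooleanAlgebra B] (f : X → B), ev f (rep a) ≤ ev f (rep b)) : a ≤ b :=
  rep_le.1 h

theorem of_le {a b : FB X} (h : a ≤ b) (B : Type w) [BooleanAlgebra B] (f : X → B) :
    ev f (rep a) ≤ ev f (rep b) := rep_le.2 h B f

noncomputable instance instLattice : Lattice (FB X) where
  sup a b := cl (.sup (rep a) (rep b))
  inf a b := cl (.inf (rep a) (rep b))
  le_sup_left a b := by
    refine le_of fun B _ f => ?_
    rw [ev_rep]
    exact le_sup_left
  le_sup_right a b := by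
    refine le_of fun B _ f => ?_
    rw [ev_rep]
    exact le_sup_right
  sup_le a b c h1 h2 := by
    refine le_of fun B _ f => ?_
    rw [ev_rep]
    exact sup_le (of_le h1 B f) (of_le h2 B f)
  inf_le_left a b := by
    refine le_of fun B _ f => ?_
    rw [ev_rep]
    exact inf_le_left
  inf_le_right a b := by
    refine le_of fun B _ f => ?_
    rw [ev_rep]
    exact inf_le_right
  le_inf a b c h1 h2 := by
    refine le_of fun B _ f => ?_
    rw [ev_rep]
    exact le_inf (of_le h1 B f) (of_le h2 B f)

theorem ev_sup {B : Type w} [BooleanAlgebra B] (f : X → B) (a b : FB X) :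
    ev f (rep (a ⊔ b)) = ev f (rep a) ⊔ ev f (rep b) := by
  change ev f (rep (cl (.sup (rep a) (rep b)))) = _
  rw [ev_rep]
  rfl

theorem ev_inf {B : Type w} [BooleanAlgebra B] (f : X → B) (a b : FB X) :
    ev f (rep (a ⊓ b)) = ev f (rep a) ⊓ ev f (rep b) := by
  change ev f (rep (cl (.inf (rep a) (rep b)))) = _
  rw [ev_rep]
  rfl

noncomputable instance instBA : BooleanAlgebra (FB X) where
  __ := instLattice
  le_sup_inf a b c := by
    refine le_of fun B _ f => ?_
    rw [ev_inf, ev_sup, ev_sup, ev_sup, ev_inf]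
    exact le_sup_inf
  compl a := cl (.cp (rep a))
  top := cl .top
  bot := cl .bot
  sdiff a b := a ⊓ cl (.cp (rep b))
  himp a b := b ⊔ cl (.cp (rep a))
  inf_compl_le_bot a := by
    refine le_of fun B _ f => ?_
    change ev f (rep (a ⊓ cl (.cp (rep a)))) ≤ ev f (rep (cl .bot))
    rw [ev_inf, ev_rep, ev_rep]
    exact (inf_compl_self _).le
  top_le_sup_compl a := by
    refine le_of fun B _ f => ?_
    change ev f (rep (cl .top)) ≤ ev f (rep (a ⊔ cl (.cp (rep a))))
    rw [ev_sup, ev_rep, ev_rep]
    exact sup_compl_eq_top.ge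
  le_top a := by
    refine le_of fun B _ f => ?_
    change _ ≤ ev f (rep (cl .top))
    rw [ev_rep]
    exact le_top
  bot_le a := by
    refine le_of fun B _ f => ?_
    change ev f (rep (cl .bot)) ≤ _
    rw [ev_rep]
    exact bot_le
  sdiff_eq _ _ := rfl
  himp_eq _ _ := rfl

theorem eq_of {a b : FB X}
    (h : ∀ (B : Type w) [BooleanAlgebra B] (f : X → B), ev f (rep a) = ev f (rep b)) : a = b :=
  le_antisymm (le_of fun B _ f => (h B f).le) (le_of fun B _ f => (h B f).ge)

theorem cl_sup (s t : BT X) : cl (.sup s t) = cl s ⊔ cl t := by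
  refine eq_of fun B _ f => ?_
  rw [ev_sup, ev_rep, ev_rep, ev_rep]
  rfl

theorem cl_inf (s t : BT X) : cl (.inf s t) = cl s ⊓ cl t := by
  refine eq_of fun B _ f => ?_
  rw [ev_inf, ev_rep, ev_rep, ev_rep]
  rfl

theorem cl_cp (s : BT X) : cl (.cp s) = (cl s)ᶜ := by
  refine eq_of fun B _ f => ?_
  change _ = ev f (rep (cl (.cp (rep (cl s)))))
  rw [ev_rep, ev_rep]
  change (ev f s)ᶜ = (ev f (rep (cl s)))ᶜ
  rw [ev_rep]

/-- The extension of a map to a homomorphism. -/
noncomputable def lift {B : Type w} [BooleanAlgebra B] (f : X → B) :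
    BoundedLatticeHom (FB X) B where
  toFun a := ev f (rep a)
  map_sup' a b := ev_sup f a b
  map_inf' a b := ev_inf f a b
  map_top' := by
    change ev f (rep (cl .top)) = _
    rw [ev_rep]
    rfl
  map_bot' := by
    change ev f (rep (cl .bot)) = _
    rw [ev_rep]
    rfl

theorem lift_var {B : Type w} [BooleanAlgebra B] (f : X → B) (x : X) :
    lift f (cl (.var x)) = f x := by
  change ev f (rep (cl (.var x))) = _
  rw [ev_rep]
  rfl

/-- Free Boolean algebras exist. -/
theorem be : t_BE.{w} := by
  intro X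
  refine ⟨FB X, instBA, fun x => cl (.var x), ?_, ?_⟩
  · intro S hS a
    obtain ⟨t, rfl⟩ := cl_surj a
    induction t with
    | var x => exact hS x
    | sup s t hs ht =>
      rw [cl_sup]
      exact BooleanSubalgebra.sup_mem hs ht
    | inf s t hs ht =>
      rw [cl_inf]
      exact BooleanSubalgebra.inf_mem hs ht
    | cp s hs =>
      rw [cl_cp]
      exact BooleanSubalgebra.compl_mem hs
    | bot => exact BooleanSubalgebra.bot_mem
    | top => exact BooleanSubalgebra.top_mem
  · intro B _ f
    exact ⟨lift f, lift_var f⟩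

end Pool.Agent.Y903.FV
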